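import Mathlib

namespace Pool.Agent.H.MP_d03a5a_nt

open Polynomial
open scoped Pointwise

lemma no_quad {D : Type*} [CommRing D] [IsDomain D] (k : ℕ) (S w : D) (hS : S ≠ 0)
    (h : (X - C w) ^ 4 ∣ X ^ (6 * k + 3) * (3 * X + C S) + C S ^ (6 * k + 3) * (X + 3 * C S)) :
    False := by
  set n := 6 * k + 3 with hn
  set f : D[X] := X ^ n * (3 * X + C S) + C S ^ n * (X + 3 * C S) with hf
  have hd : (X - C w) ^ 3 ∣ derivative f := by
    have := pow_sub_one_dvd_derivative_of_pow_dvd h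
    simpa using this
  have h3 : (X - C w) ^ 3 ∣ f := (pow_dvd_pow _ (by norm_num)).trans h
  have hder : X * derivative f = (n : D[X]) * X ^ n * (3 * X + C S) + 3 * X ^ (n + 1) + C S ^ n * X := by
    have h1 : n = (6 * k + 2) + 1 := by omega
    rw [hf, ← C_pow]
    simp only [derivative_add, derivative_mul, derivative_X_pow, derivative_X, derivative_C,
      derivative_ofNat]
    rw [h1]
    simp only [Nat.add_sub_cancel, map_natCast]
    ring
  set q : D[X] := C (3 * (n : D)) * X ^ 2 + C ((10 * (n : D) + 8) * S) * X + C (3 * (n : D) * S ^ 2)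
    with hq
  have key : (3 * X + C S) * (X * derivative f) - ((n : D[X]) * (3 * X + C S) + 3 * X) * f
      = - (C (S ^ n) * q) := by
    rw [hder, hf, hq]
    simp only [map_mul, map_add, map_pow, map_natCast, map_ofNat]
    ring
  have h4 : (X - C w) ^ 3 ∣ C (S ^ n) * q := by
    rw [← dvd_neg, ← key]
    exact dvd_sub (dvd_mul_of_dvd_right (dvd_mul_of_dvd_right hd _) _) (dvd_mul_of_dvd_right h3 _)
  have hq0 : C (S ^ n) * q = 0 := by
    by_contra hne
    have h5 := natDegree_le_of_dvd h4 hne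
    rw [natDegree_pow, natDegree_X_sub_C] at h5
    have h6 : (C (S ^ n) * q).natDegree ≤ 2 := (natDegree_C_mul_le _ _).trans natDegree_quadratic_le
    omega
  have hq1 : q = 0 := by
    rcases mul_eq_zero.1 hq0 with h7 | h7
    · exact absurd (C_eq_zero.1 h7) (pow_ne_zero _ hS)
    · exact h7
  have c2 : 3 * (n : D) = 0 := by
    have := congrArg (fun p => coeff p 2) hq1
    simpa [hq, coeff_X, coeff_C, -map_mul] using this
  have c1 : (10 * (n : D) + 8) = 0 := by
    have := congrArg (fun p => coeff p 1) hq1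
    simp only [hq, coeff_add, coeff_C_mul, coeff_X_pow, coeff_X_one, coeff_C, coeff_zero] at this
    simp at this
    tauto
  have hnD : (n : D) = 6 * k + 3 := by rw [hn]; push_cast; ring
  rw [hnD] at c1 c2
  have h24 : (2 : D) * 2 * 2 * 3 = 0 := by linear_combination 3 * c1 - 10 * c2
  have h23 : (2 : D) = 0 ∨ (3 : D) = 0 := by
    simp only [mul_eq_zero] at h24
    tauto
  rcases h23 with h2 | h2
  · have : (1 : D) = 0 := by linear_combination c2 - (9 * k + 4) * h2
    exact one_ne_zero this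
  · have : (1 : D) = 0 := by linear_combination - c1 + (20 * k + 13) * h2
    exact one_ne_zero this

lemma lift_inertia {B G : Type*} [CommRing B] [Group G] [Finite G] [MulSemiringAction G B]
    (H : Subgroup G) (Q : Ideal B) [Q.IsPrime] (τ : G)
    (hτ : ∀ a : B, (∀ h ∈ H, h • a = a) → τ • a - a ∈ Q) :
    ∃ h ∈ H, ∀ x : B, (τ * h) • x - x ∈ Q := by
  let A := FixedPoints.subring B H
  have hinv : Algebra.IsInvariant A B H := ⟨fun b hb => ⟨⟨b, hb⟩, rfl⟩⟩
  have hA : ∀ a : A, τ • (a : B) - a ∈ Q := fun a => hτ a (fun h hh => a.2 ⟨h, hh⟩)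
  have hpr : (τ⁻¹ • Q).IsPrime := Ideal.IsPrime.smul _
  have hunder : Q.under A = (τ⁻¹ • Q).under A := by
    ext a
    simp only [Ideal.under, Ideal.mem_comap, Ideal.mem_inv_pointwise_smul_iff]
    change (a : B) ∈ Q ↔ τ • (a : B) ∈ Q
    constructor
    · intro h
      simpa using Q.add_mem (hA a) h
    · intro h
      simpa using Q.sub_mem h (hA a)
  obtain ⟨g, hg⟩ := Algebra.IsInvariant.exists_smul_of_under_eq A B H Q (τ⁻¹ • Q) hunder
  have hstab : (τ * g) • Q = Q := by
    rw [mul_smul]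
    have : (g : G) • Q = τ⁻¹ • Q := hg.symm
    rw [this, smul_inv_smul]
  have hmap : Q = Q.map (MulSemiringAction.toRingEquiv G B (τ * g) : B →+* B) := hstab.symm
  let e := Ideal.quotientEquiv Q Q (MulSemiringAction.toRingEquiv G B (τ * g)) hmap
  have he : ∀ x : B, e (Ideal.Quotient.mk Q x) = Ideal.Quotient.mk Q ((τ * g) • x) := fun x => rfl
  let f : (B ⧸ Q) ≃ₐ[A ⧸ Q.under A] (B ⧸ Q) := AlgEquiv.ofRingEquiv (f := e) (by
    intro y
    obtain ⟨a, rfl⟩ := Ideal.Quotient.mk_surjective y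
    change e (Ideal.Quotient.mk Q (a : B)) = Ideal.Quotient.mk Q (a : B)
    rw [he, Ideal.Quotient.eq, mul_smul]
    have : (g : G) • (a : B) = a := a.2 g
    rw [this]
    exact hA a)
  obtain ⟨s, hs⟩ := Ideal.Quotient.stabilizerHom_surjective H (Q.under A) Q f
  refine ⟨g * ((s : H) : G)⁻¹, mul_mem g.2 (inv_mem (s : H).2), ?_⟩
  intro x
  rw [← Ideal.Quotient.eq, ← mul_assoc, mul_smul, ← he]
  have h1 : e (Ideal.Quotient.mk Q (((s : H) : G)⁻¹ • x)) =
      f (Ideal.Quotient.mk Q (((s : H) : G)⁻¹ • x)) := rfl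
  rw [h1, ← hs]
  change Ideal.Quotient.mk Q (((s : H) : G) • (((s : H) : G)⁻¹ • x)) = _
  rw [smul_inv_smul]

end Pool.Agent.H.MP_d03a5a_nt
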