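import Mathlib
import Pool.Agent.H.MP_d03a5a_nt.A

namespace Pool.Agent.H.MP_d03a5a_nt

open Polynomial NumberField IntermediateField

variable {L : Type} [Field L] [NumberField L]

lemma coe_smul (σ : L ≃ₐ[ℚ] L) (x : 𝓞 L) : ((σ • x : 𝓞 L) : L) = σ (x : L) := rfl

lemma loc_fix (Q : Ideal (𝓞 L)) [Q.IsPrime] (σ : L ≃ₐ[ℚ] L) (hσ : ∀ x : 𝓞 L, σ • x - x ∈ Q)
    (k : ℕ) (α : L) (hα : α ^ (6 * k + 3) * (3 * α + 1) + (α + 3) = 0) (a s : 𝓞 L) (hs : s ∉ Q)
    (has : (a : L) = s * α) : (σ ^ 6) α = α := by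
  classical
  by_contra hne
  have hpow : ∀ d : ℕ, (σ ^ d) α = α → ∀ m : ℕ, (σ ^ (d * m)) α = α := by
    intro d hd m
    induction m with
    | zero => simp
    | succ m ih => rw [Nat.mul_succ, pow_add, AlgEquiv.mul_apply, hd, ih]
  have hlt : ∀ i j : ℕ, i < j → j < 4 → (σ ^ i) α ≠ (σ ^ j) α := by
    intro i j hij hj h
    obtain ⟨d, rfl⟩ := Nat.exists_eq_add_of_lt hij
    rw [add_assoc, pow_add, AlgEquiv.mul_apply] at h
    have h1 : (σ ^ (d + 1)) α = α := ((σ ^ i).injective h).symm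
    have : d = 0 ∨ d = 1 ∨ d = 2 := by omega
    rcases this with rfl | rfl | rfl
    · exact hne (hpow _ h1 6)
    · exact hne (hpow _ h1 3)
    · exact hne (hpow _ h1 2)
  have hmk : ∀ (j : ℕ) (x : 𝓞 L), Ideal.Quotient.mk Q ((σ ^ j) • x) = Ideal.Quotient.mk Q x := by
    intro j x
    induction j with
    | zero => simp
    | succ j ih => rw [pow_succ', mul_smul, ← ih, Ideal.Quotient.eq]; exact hσ _
  set S : 𝓞 L := ∏ j : Fin 4, (σ ^ (j : ℕ)) • s with hS
  let w : Fin 4 → 𝓞 L := fun i => (σ ^ (i : ℕ)) • a * ∏ j ∈ Finset.univ.erase i, (σ ^ (j : ℕ)) • s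
  have hw : ∀ i, (w i : L) = (S : L) * (σ ^ (i : ℕ)) α := by
    intro i
    rw [hS, ← Finset.mul_prod_erase Finset.univ _ (Finset.mem_univ i)]
    simp only [w, map_mul]
    change (σ ^ (i : ℕ)) (a : L) * _ = (σ ^ (i : ℕ)) (s : L) * _ * _
    rw [has, map_mul]
    ring
  have hSbar : Ideal.Quotient.mk Q S = Ideal.Quotient.mk Q s ^ 4 := by
    rw [hS, map_prod]
    simp [hmk]
  have hwbar : ∀ i, Ideal.Quotient.mk Q (w i) =
      Ideal.Quotient.mk Q a * Ideal.Quotient.mk Q s ^ 3 := by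
    intro i
    simp only [w, map_mul, map_prod, hmk, Finset.prod_const]
    rw [Finset.card_erase_of_mem (Finset.mem_univ i)]
    simp
  have hsbar : Ideal.Quotient.mk Q s ≠ 0 := fun h => hs (Ideal.Quotient.eq_zero_iff_mem.1 h)
  have hS0 : Ideal.Quotient.mk Q S ≠ 0 := by rw [hSbar]; exact pow_ne_zero _ hsbar
  have hS1 : (S : L) ≠ 0 := by
    intro h
    apply hS0
    have : S = 0 := by exact_mod_cast h
    rw [this, map_zero]
  have hinj : Function.Injective w := by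
    intro i j hij
    have h1 : (σ ^ (i : ℕ)) α = (σ ^ (j : ℕ)) α := by
      have := hw i
      rw [hij, hw j] at this
      exact (mul_left_cancel₀ hS1 this).symm
    rcases lt_trichotomy (i : ℕ) j with h | h | h
    · exact absurd h1 (hlt _ _ h j.2)
    · exact Fin.ext h
    · exact absurd h1.symm (hlt _ _ h i.2)
  set f : (𝓞 L)[X] :=
    X ^ (6 * k + 3) * (3 * X + C S) + C S ^ (6 * k + 3) * (X + 3 * C S) with hf
  have hroot : ∀ i, f.IsRoot (w i) := by
    intro i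
    have h1 := congrArg (σ ^ (i : ℕ)) hα
    simp only [map_add, map_mul, map_pow, map_ofNat, map_one, map_zero] at h1
    rw [IsRoot.def, hf]
    apply RingOfIntegers.coe_injective
    simp only [eval_add, eval_mul, eval_pow, eval_X, eval_C, eval_ofNat, map_add, map_mul, map_pow,
      map_ofNat, map_zero]
    have h2 : algebraMap (𝓞 L) L (w i) = algebraMap (𝓞 L) L S * (σ ^ (i : ℕ)) α := hw i
    rw [h2, mul_pow]
    linear_combination (algebraMap (𝓞 L) L S) ^ (6 * k + 3) * algebraMap (𝓞 L) L S * h1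
  have hdvd : ((Multiset.map w Finset.univ.val).map fun r => X - C r).prod ∣ f := by
    by_cases hf0 : f = 0
    · rw [hf0]; exact dvd_zero _
    · rw [Multiset.prod_X_sub_C_dvd_iff_le_roots hf0,
        Multiset.le_iff_subset (Multiset.Nodup.map hinj Finset.univ.nodup)]
      intro r hr
      obtain ⟨i, -, rfl⟩ := Multiset.mem_map.1 hr
      exact (mem_roots hf0).2 (hroot i)
  have hdvd2 := Polynomial.map_dvd (Ideal.Quotient.mk Q) hdvd
  rw [Multiset.map_map, ← Finset.prod_eq_multiset_prod, Polynomial.map_prod] at hdvd2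
  simp only [Function.comp, Polynomial.map_sub, map_X, map_C, hwbar, Finset.prod_const,
    Finset.card_univ, Fintype.card_fin, hf, Polynomial.map_add, Polynomial.map_mul,
    Polynomial.map_pow, Polynomial.map_ofNat] at hdvd2
  exact no_quad k _ _ hS0 hdvd2

lemma integral_smul {R T : Type*} [CommRing R] [CommRing T] [Algebra R T] (c : R) (x : T) (n : ℕ)
    (p : R[X]) (hp : p.degree < n) (h : algebraMap R T c * x ^ n + aeval x p = 0) :
    IsIntegral R (algebraMap R T c * x) := by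
  by_cases hc : c = 0
  · rw [hc, map_zero, zero_mul]; exact isIntegral_zero
  · have h1 : (C c * X ^ n + p).leadingCoeff = c := by
      rw [leadingCoeff_add_of_degree_lt' (by rw [degree_C_mul_X_pow _ hc]; exact hp),
        leadingCoeff_C_mul_X_pow]
    have := isIntegral_leadingCoeff_smul (C c * X ^ n + p) x (by simpa using h)
    rwa [h1, Algebra.smul_def] at this

lemma three_mul_int {T : Type*} [CommRing T] (k : ℕ) (α : T)
    (hα : α ^ (6 * k + 3) * (3 * α + 1) + (α + 3) = 0) : IsIntegral ℤ (3 * α) := by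
  have := integral_smul (3 : ℤ) α (6 * k + 4) (X ^ (6 * k + 3) + X + C 3) (by
    refine lt_of_le_of_lt (b := ((6 * k + 3 : ℕ) : WithBot ℕ)) ?_ (by exact_mod_cast Nat.lt_succ_self _)
    compute_degree
    all_goals first | omega | norm_cast) (by
    simp only [map_add, map_pow, aeval_X, map_ofNat]
    linear_combination hα)
  simpa using this

lemma inv_root {T : Type*} [Field T] [CharZero T] (k : ℕ) (α : T)
    (hα : α ^ (6 * k + 3) * (3 * α + 1) + (α + 3) = 0) :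
    α ≠ 0 ∧ α⁻¹ ^ (6 * k + 3) * (3 * α⁻¹ + 1) + (α⁻¹ + 3) = 0 := by
  have h0 : α ≠ 0 := by
    rintro rfl
    simp at hα
  refine ⟨h0, ?_⟩
  rw [inv_pow]
  field_simp
  linear_combination hα

lemma root_fix (Q : Ideal (𝓞 L)) [hQ : Q.IsPrime] (σ : L ≃ₐ[ℚ] L)
    (hσ : ∀ x : 𝓞 L, σ • x - x ∈ Q)
    (k : ℕ) (α : L) (hα : α ^ (6 * k + 3) * (3 * α + 1) + (α + 3) = 0) : (σ ^ 6) α = α := by
  let w : 𝓞 L := ⟨3 * α, three_mul_int k α hα⟩
  have hw : algebraMap (𝓞 L) L w = 3 * α := rfl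
  have hy : IsIntegral ℤ (algebraMap (𝓞 L) L (w + 1) * α) := by
    refine isIntegral_trans (A := 𝓞 L) _ ?_
    refine integral_smul (w + 1) α (6 * k + 3) (X + C 3) ?_ ?_
    · refine lt_of_le_of_lt (b := ((1 : ℕ) : WithBot ℕ)) ?_ (by exact_mod_cast (by omega))
      compute_degree!
    · simp only [map_add, aeval_X, map_one, hw, map_ofNat]
      linear_combination hα
  by_cases h1 : w + 1 ∈ Q
  · by_cases h3 : (3 : 𝓞 L) ∈ Q
    · have hwQ : w ∉ Q := by
        intro h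
        apply hQ.ne_top
        rw [Ideal.eq_top_iff_one]
        simpa using Q.sub_mem h1 h
      obtain ⟨h0, hi⟩ := inv_root k α hα
      have := loc_fix Q σ hσ k α⁻¹ hi 3 w hwQ (by
        change algebraMap (𝓞 L) L 3 = algebraMap (𝓞 L) L w * α⁻¹
        rw [hw, map_ofNat]
        field_simp)
      rw [map_inv₀] at this
      exact inv_injective this
    · exact loc_fix Q σ hσ k α hα w 3 h3 (by
        change algebraMap (𝓞 L) L w = algebraMap (𝓞 L) L 3 * α
        rw [hw, map_ofNat])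
  · exact loc_fix Q σ hσ k α hα ⟨_, hy⟩ (w + 1) h1 rfl

lemma cyc [IsGalois ℚ L] (p a : ℕ) (hp : p.Prime) (ζ : L) (hζ : IsPrimitiveRoot ζ (p ^ a))
    (m : ℕ) (hm : m.Coprime (p ^ a)) :
    ∃ (Q : Ideal (𝓞 L)) (_ : Q.IsPrime) (σ : L ≃ₐ[ℚ] L), (∀ x : 𝓞 L, σ • x - x ∈ Q) ∧
      σ ζ = ζ ^ m := by
  have hpos : 0 < p ^ a := pow_pos hp.pos _
  have : NeZero (p ^ a) := ⟨hpos.ne'⟩
  have hfact : Fact p.Prime := ⟨hp⟩
  have hmax : (Ideal.span {(p : ℤ)}).IsMaximal :=
    (Ideal.span_singleton_prime (by exact_mod_cast hp.ne_zero)).2 (Nat.prime_iff_prime_int.1 hp)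
      |>.isMaximal (by simpa using hp.ne_zero)
  obtain ⟨Q, hQ, hQp⟩ := Ideal.exists_ideal_over_maximal_of_isIntegral (S := 𝓞 L)
    (Ideal.span {(p : ℤ)}) (by
      rw [(RingHom.injective_iff_ker_eq_bot _).1 (algebraMap ℤ (𝓞 L)).injective_int]
      exact bot_le)
  have hpQ : (p : 𝓞 L) ∈ Q := by
    have : (p : ℤ) ∈ Q.comap (algebraMap ℤ (𝓞 L)) := by
      rw [hQp]; exact Ideal.mem_span_singleton_self _
    simpa [Ideal.mem_comap] using this
  have hchar : CharP (𝓞 L ⧸ Q) p := by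
    rw [CharP.charP_iff_prime_eq_zero hp]
    have := Ideal.Quotient.eq_zero_iff_mem.2 hpQ
    simpa using this
  let z : 𝓞 L := ⟨ζ, hζ.isIntegral hpos⟩
  have hz : z ^ p ^ a = 1 := by
    apply RingOfIntegers.coe_injective
    rw [map_pow, map_one]
    exact hζ.pow_eq_one
  have hz1 : Ideal.Quotient.mk Q z = 1 := by
    have h1 : (Ideal.Quotient.mk Q z - 1) ^ p ^ a = 0 := by
      rw [sub_pow_char_pow, ← map_pow, hz]; simp
    exact sub_eq_zero.1 (pow_eq_zero_iff hpos.ne' |>.1 h1)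
  have hconj : IsConjRoot ℚ (ζ ^ m) ζ := by
    rw [isConjRoot_def, ← cyclotomic_eq_minpoly_rat hζ hpos,
      ← cyclotomic_eq_minpoly_rat (hζ.pow_of_coprime m hm) hpos]
  obtain ⟨τ, hτ⟩ := hconj.exists_algEquiv
  obtain ⟨h, hh, hx⟩ := lift_inertia (ℚ⟮ζ⟯.fixingSubgroup) Q τ (by
    intro b hb
    have hbE : (b : L) ∈ ℚ⟮ζ⟯ := by
      rw [← IsGalois.fixedField_fixingSubgroup ℚ⟮ζ⟯, mem_fixedField_iff]
      intro g hg
      exact congrArg (fun y : 𝓞 L => (y : L)) (hb g hg)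
    have hcyc : IsCyclotomicExtension {p ^ a} ℚ ℚ⟮ζ⟯ :=
      hζ.intermediateField_adjoin_isCyclotomicExtension ℚ
    have hζ' : IsPrimitiveRoot (AdjoinSimple.gen ℚ ζ) (p ^ a) :=
      IsPrimitiveRoot.coe_submonoidClass_iff.1 hζ
    have hint : IsIntegral ℤ (⟨(b : L), hbE⟩ : ℚ⟮ζ⟯) := by
      rw [← isIntegral_algebraMap_iff (A := ℚ⟮ζ⟯) (B := L) (algebraMap ℚ⟮ζ⟯ L).injective]
      exact b.isIntegral_coe
    obtain ⟨y, hy⟩ :=
      (IsCyclotomicExtension.Rat.isIntegralClosure_adjoin_singleton (hcycl := by convert hcyc) hζ').isIntegral_iff.1 hint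
    obtain ⟨g, hg⟩ := (Algebra.adjoin_singleton_eq_range_aeval ℤ (AdjoinSimple.gen ℚ ζ)).le y.2
    have hb2 : b = aeval z g := by
      apply RingOfIntegers.coe_injective
      rw [← aeval_algebraMap_apply]
      have h1 : algebraMap (𝓞 L) L z = algebraMap ℚ⟮ζ⟯ L (AdjoinSimple.gen ℚ ζ) := rfl
      rw [h1, aeval_algebraMap_apply]
      have h2 : aeval (AdjoinSimple.gen ℚ ζ) g = ⟨(b : L), hbE⟩ := hg.trans hy
      rw [h2]
      rfl
    have hτz : τ • z = z ^ m := by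
      apply RingOfIntegers.coe_injective
      rw [map_pow]
      exact hτ
    rw [← Ideal.Quotient.eq, hb2]
    have h3 : τ • aeval z g = aeval (z ^ m) g := by
      rw [← hτz]
      exact (aeval_algHom_apply (MulSemiringAction.toRingHom _ (𝓞 L) τ).toIntAlgHom z g).symm
    rw [h3]
    have h4 : ∀ y : 𝓞 L, Ideal.Quotient.mk Q (aeval y g) = aeval (Ideal.Quotient.mk Q y) g :=
      fun y => (aeval_algHom_apply (Ideal.Quotient.mk Q).toIntAlgHom y g).symm
    rw [h4, h4, map_pow, hz1, one_pow])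
  refine ⟨Q, hQ.isPrime, τ * h, hx, ?_⟩
  rw [AlgEquiv.mul_apply, ← hτ]
  congr 1
  exact (mem_fixingSubgroup_iff _ _).1 hh ζ (mem_adjoin_simple_self ℚ ζ)

lemma order_dvd [IsGalois ℚ L] (R : Set L) (hR : Algebra.adjoin ℚ R = ⊤)
    (hR' : ∀ α ∈ R, ∃ k : ℕ, α ^ (6 * k + 3) * (3 * α + 1) + (α + 3) = 0)
    (ζ : L) (N : ℕ) (hN : 0 < N) (hζ : IsPrimitiveRoot ζ N) : N ∣ 504 := by
  rw [Nat.dvd_iff_prime_pow_dvd_dvd]
  intro p a hp hpa
  obtain ⟨c, hc⟩ := hpa
  have hξ : IsPrimitiveRoot (ζ ^ c) (p ^ a) := hζ.pow hN (by rw [hc, mul_comm])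
  have key : ∀ m : ℕ, 0 < m → m.Coprime (p ^ a) → p ^ a ∣ m ^ 6 - 1 := by
    intro m hm0 hm
    obtain ⟨Q, hQ, σ, h1, h2⟩ := cyc p a hp (ζ ^ c) hξ m hm
    have h3 : ((σ ^ 6 : L ≃ₐ[ℚ] L) : L →ₐ[ℚ] L) = AlgHom.id ℚ L := by
      apply AlgHom.ext_of_adjoin_eq_top hR
      intro α hα
      obtain ⟨k, hk⟩ := hR' α hα
      exact root_fix Q σ h1 k α hk
    have h4 : (σ ^ 6) (ζ ^ c) = ζ ^ c := DFunLike.congr_fun h3 (ζ ^ c)
    have h5 : ∀ j : ℕ, (σ ^ j) (ζ ^ c) = (ζ ^ c) ^ m ^ j := by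
      intro j
      induction j with
      | zero => simp
      | succ j ih => rw [pow_succ', AlgEquiv.mul_apply, ih, map_pow, h2, ← pow_mul, ← pow_succ']
    rw [h5] at h4
    rw [← hξ.pow_eq_one_iff_dvd]
    have h6 : ζ ^ c ≠ 0 := hξ.ne_zero (pow_pos hp.pos _).ne'
    have h7 : m ^ 6 = (m ^ 6 - 1) + 1 := (Nat.sub_add_cancel (Nat.one_le_pow _ _ hm0)).symm
    rw [h7, pow_succ] at h4
    exact mul_right_cancel₀ h6 (h4.trans (one_mul _).symm)
  by_cases h2 : p = 2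
  · subst h2
    have h := key 3 (by norm_num) (Nat.Coprime.pow_right _ (by norm_num))
    have h' : 2 ^ a ∣ 8 * 91 := h
    have := (Nat.Coprime.pow_left a (by norm_num : Nat.Coprime 2 91)).dvd_of_dvd_mul_right h'
    exact this.trans (by norm_num)
  · have h := key 2 (by norm_num)
      (Nat.Coprime.pow_right _ ((Nat.coprime_primes Nat.prime_two hp).2 (Ne.symm h2)))
    exact h.trans (by norm_num)

end Pool.Agent.H.MP_d03a5a_nt
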