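import Mathlib

namespace Pool.Agent.H.MP_d03a5a_nt

open NumberField IntermediateField Height

lemma real_ineq (t : ℝ) : 2 * |t * (t ^ 2 - 1)| ≤ max |t| 1 ^ 4 := by
  rw [abs_mul, ← sq_abs t]
  set u := |t| with hu
  have h0 : 0 ≤ u := abs_nonneg t
  rcases le_total u 1 with h | h
  · rw [max_eq_right h, abs_of_nonpos (by nlinarith)]
    nlinarith [mul_nonneg h0 (sq_nonneg (u - 3 / 5)), sq_nonneg (u - 3 / 5)]
  · rw [max_eq_left h, abs_of_nonneg (by nlinarith)]
    have h1 : 2 * (u ^ 2 - 1) ≤ u ^ 3 := by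
      nlinarith [mul_nonneg h0 (sq_nonneg (u - 3 / 2)), sq_nonneg (u - 3 / 2)]
    nlinarith [mul_le_mul_of_nonneg_left h1 h0]

lemma schinzel {K : Type*} [Field K] [NumberField K] (g : K) (hg : g * (g ^ 2 - 1) ≠ 0)
    (hr : ∀ φ : K →+* ℂ, (φ g).im = 0) :
    (Module.finrank ℚ K : ℝ) * Real.log 2 ≤ 4 * logHeight₁ g := by
  have hg0 : g ≠ 0 := left_ne_zero_of_mul hg
  have hpf := prod_abs_eq_one hg
  have hfin : (fun v : FinitePlace K => max (v g) 1).HasFiniteMulSupport := by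
    refine (FinitePlace.hasFiniteMulSupport hg0).subset ?_
    intro v hv h
    apply hv
    simp only at h ⊢
    rw [h, max_self]
  have hfin4 : (fun v : FinitePlace K => max (v g) 1 ^ 4).HasFiniteMulSupport := by
    refine hfin.subset ?_
    intro v hv h
    apply hv
    simp only at h ⊢
    rw [h, one_pow]
  have h1 : ∏ᶠ v : FinitePlace K, v (g * (g ^ 2 - 1)) ≤ (∏ᶠ v : FinitePlace K, max (v g) 1) ^ 4 := by
    rw [finprod_pow hfin]
    refine finprod_le_finprod (FinitePlace.hasFiniteMulSupport hg) (fun v => apply_nonneg v _)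
      hfin4 ?_
    intro v
    simp only
    have ha : v (g ^ 2 - 1) ≤ max (v g) 1 ^ 2 := by
      rw [sub_eq_add_neg]
      refine (v.add_le _ _).trans (max_le ?_ ?_)
      · rw [map_pow]
        exact pow_le_pow_left₀ (apply_nonneg v _) (le_max_left _ _) 2
      · rw [map_neg_eq_map, map_one]
        exact one_le_pow₀ (le_max_right _ _)
    have hb : 1 ≤ max (v g) 1 := le_max_right _ _
    rw [map_mul]
    calc v g * v (g ^ 2 - 1) ≤ max (v g) 1 * max (v g) 1 ^ 2 :=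
          mul_le_mul (le_max_left _ _) ha (apply_nonneg v _) (by positivity)
      _ = max (v g) 1 ^ 3 := by ring
      _ ≤ max (v g) 1 ^ 4 := pow_le_pow_right₀ hb (by norm_num)
  have h2 : (2 : ℝ) ^ Module.finrank ℚ K * ∏ w : InfinitePlace K, w (g * (g ^ 2 - 1)) ^ w.mult ≤
      (∏ w : InfinitePlace K, max (w g) 1 ^ w.mult) ^ 4 := by
    rw [← InfinitePlace.sum_mult_eq, ← Finset.prod_pow_eq_pow_sum, ← Finset.prod_mul_distrib,
      ← Finset.prod_pow]
    refine Finset.prod_le_prod (fun w _ => by positivity) ?_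
    intro w _
    rw [← mul_pow, ← pow_mul, mul_comm w.mult, pow_mul]
    refine pow_le_pow_left₀ (by positivity) ?_ _
    rw [← w.norm_embedding_eq, ← w.norm_embedding_eq]
    have h3 : w.embedding g = ((w.embedding g).re : ℂ) := by
      apply Complex.ext <;> simp [hr]
    simp only [map_mul, map_sub, map_pow, map_one]
    rw [h3]
    have := real_ineq (w.embedding g).re
    rw [← Real.norm_eq_abs, ← Real.norm_eq_abs, ← Complex.norm_real, ← Complex.norm_real] at this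
    push_cast at this
    exact this
  have h3 : (2 : ℝ) ^ Module.finrank ℚ K ≤ mulHeight₁ g ^ 4 := by
    rw [NumberField.mulHeight₁_eq, mul_pow]
    calc (2 : ℝ) ^ Module.finrank ℚ K
        = (2 ^ Module.finrank ℚ K * ∏ w : InfinitePlace K, w (g * (g ^ 2 - 1)) ^ w.mult) *
          ∏ᶠ v : FinitePlace K, v (g * (g ^ 2 - 1)) := by rw [mul_assoc, hpf, mul_one]
      _ ≤ _ := mul_le_mul h2 h1 (finprod_nonneg fun v => apply_nonneg v _) (by positivity)
  have h4 := Real.log_le_log (by positivity) h3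
  rw [Real.log_pow, Real.log_pow] at h4
  rw [logHeight₁_eq_log_mulHeight₁]
  exact_mod_cast h4

lemma small {K : Type*} [Field K] [NumberField K] (k : ℕ) (g : K)
    (hg : g ^ (6 * k + 3) * (3 * g + 1) + (g + 3) = 0) :
    (6 * k + 1) * logHeight₁ g ≤ 6 * ((Module.finrank ℚ K : ℝ) * Real.log 2) := by
  have h0 : 3 * g + 1 ≠ 0 := by
    intro h
    rw [h] at hg
    have : (8 : K) = 0 := by linear_combination 3 * hg - h
    norm_num at this
  have h1 : g ^ (6 * k + 3) = -(g + 3) * (3 * g + 1)⁻¹ := by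
    rw [eq_mul_inv_iff_mul_eq₀ h0]
    linear_combination hg
  have h2 := logHeight₁_pow g (6 * k + 3)
  rw [h1] at h2
  have h3 := logHeight₁_mul_le (-(g + 3)) (3 * g + 1)⁻¹
  rw [logHeight₁_neg, logHeight₁_inv] at h3
  have h4 := logHeight₁_add_le g 3
  have h5 := logHeight₁_add_le (3 * g) 1
  have h6 := logHeight₁_mul_le 3 g
  have h7 := logHeight₁_add_le (1 : K) 1
  have h8 := logHeight₁_add_le (1 + 1 : K) 1
  have h9 : (1 + 1 + 1 : K) = 3 := by norm_num
  rw [h9] at h8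
  rw [logHeight₁_one] at h5 h7 h8
  rw [totalWeight_eq_finrank] at h4 h5 h7 h8
  push_cast at h2
  linarith

lemma abs_eq {T : Type*} [Field T] [CharZero T] (x : T) (hx : IsIntegral ℚ x) :
    haveI : FiniteDimensional ℚ ℚ⟮x⟯ := adjoin.finiteDimensional hx
    haveI : NumberField ℚ⟮x⟯ := {}
    absLogHeight₁ x = (Module.finrank ℚ ℚ⟮x⟯ : ℝ)⁻¹ * logHeight₁ (AdjoinSimple.gen ℚ x) := by
  have : FiniteDimensional ℚ ℚ⟮x⟯ := adjoin.finiteDimensional hx
  have : NumberField ℚ⟮x⟯ := {}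
  unfold absLogHeight₁ absMulHeight₁
  rw [dif_pos hx, Real.log_rpow (mulHeight₁_pos _), logHeight₁_eq_log_mulHeight₁]

lemma abs_small {T : Type*} [Field T] [CharZero T] (x : T) (hx : IsIntegral ℚ x) (k : ℕ)
    (hg : x ^ (6 * k + 3) * (3 * x + 1) + (x + 3) = 0) :
    (6 * k + 1) * absLogHeight₁ x ≤ 6 * Real.log 2 := by
  have : FiniteDimensional ℚ ℚ⟮x⟯ := adjoin.finiteDimensional hx
  have : NumberField ℚ⟮x⟯ := {}
  rw [abs_eq x hx]
  have h := small k (AdjoinSimple.gen ℚ x) (by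
    apply (algebraMap ℚ⟮x⟯ T).injective
    simp only [map_add, map_mul, map_pow, map_ofNat, map_one, map_zero]
    exact hg)
  have hd : (0 : ℝ) < Module.finrank ℚ ℚ⟮x⟯ := by exact_mod_cast Module.finrank_pos
  rw [mul_left_comm, inv_mul_le_iff₀ hd]
  linarith

lemma abs_large {T : Type*} [Field T] [CharZero T] [Algebra.IsAlgebraic ℚ T] (x : T)
    (hg : x * (x ^ 2 - 1) ≠ 0) (hr : ∀ φ : T →+* ℂ, (φ x).im = 0) :
    Real.log 2 / 4 ≤ absLogHeight₁ x := by
  have hx : IsIntegral ℚ x := Algebra.IsIntegral.isIntegral x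
  have : FiniteDimensional ℚ ℚ⟮x⟯ := adjoin.finiteDimensional hx
  have : NumberField ℚ⟮x⟯ := {}
  rw [abs_eq x hx]
  have h := schinzel (AdjoinSimple.gen ℚ x) (by
    intro h
    apply hg
    simpa using congrArg (algebraMap ℚ⟮x⟯ T) h) (by
    intro ψ
    let _ : Algebra ℚ⟮x⟯ ℂ := ψ.toAlgebra
    have : Algebra.IsAlgebraic ℚ⟮x⟯ T := Algebra.IsAlgebraic.tower_top (K := ℚ) _
    let φ : T →ₐ[ℚ⟮x⟯] ℂ := IsAlgClosed.lift
    have h1 := hr φ.toRingHom
    have h2 : φ x = ψ (AdjoinSimple.gen ℚ x) := φ.commutes (AdjoinSimple.gen ℚ x)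
    rw [← h2]
    exact h1)
  have hd : (0 : ℝ) < Module.finrank ℚ ℚ⟮x⟯ := by exact_mod_cast Module.finrank_pos
  rw [le_inv_mul_iff₀ hd]
  linarith

lemma norm_one (k : ℕ) (z : ℂ) (hz : z ^ (6 * k + 3) * (3 * z + 1) + (z + 3) = 0) : ‖z‖ = 1 := by
  have h1 : ‖z‖ ^ (6 * k + 3) * ‖3 * z + 1‖ = ‖z + 3‖ := by
    rw [← norm_pow, ← norm_mul, ← norm_neg (z + 3)]
    congr 1
    linear_combination hz
  have h2 : ‖z + 3‖ ^ 2 - ‖3 * z + 1‖ ^ 2 = 8 * (1 - ‖z‖ ^ 2) := by
    simp only [Complex.sq_norm, Complex.normSq_apply]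
    simp
    ring
  have ha := norm_nonneg (z + 3)
  have hb := norm_nonneg (3 * z + 1)
  have hc := norm_nonneg z
  rcases lt_trichotomy ‖z‖ 1 with h | h | h
  · exfalso
    have h3 : ‖z‖ ^ (6 * k + 3) ≤ 1 := pow_le_one₀ hc h.le
    have h4 : ‖z + 3‖ ≤ ‖3 * z + 1‖ := by rw [← h1]; exact mul_le_of_le_one_left hb h3
    nlinarith
  · exact h
  · exfalso
    have h3 : 1 ≤ ‖z‖ ^ (6 * k + 3) := one_le_pow₀ h.le
    have h4 : ‖3 * z + 1‖ ≤ ‖z + 3‖ := by rw [← h1]; exact le_mul_of_one_le_left hb h3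
    nlinarith

end Pool.Agent.H.MP_d03a5a_nt
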