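import Mathlib
import Pool.Agent.H.MP_d03a5a_nt.B
import Pool.Agent.H.MP_d03a5a_nt.C

namespace Pool.Agent.H.MP_d03a5a_nt

open Polynomial NumberField IntermediateField

variable {Om : Type} [Field Om] [CharZero Om] [IsAlgClosure ℚ Om]

def RS (Om : Type) [Field Om] (N : Set ℕ) : Set Om :=
  {α | ∃ k ∈ N, α ^ (6 * k + 3) * (3 * α + 1) + (α + 3) = 0}

lemma normal_RS (N : Set ℕ) : Normal ℚ (adjoin ℚ (RS Om N)) := by
  refine normal_iff_forall_map_le'.2 ?_
  intro σ
  rw [adjoin_map]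
  apply adjoin.mono
  rintro _ ⟨α, ⟨k, hk, h⟩, rfl⟩
  refine ⟨k, hk, ?_⟩
  have := congrArg σ h
  simpa [map_ofNat] using this

omit [IsAlgClosure ℚ Om] in
lemma finite_RS (N : Set ℕ) (hN : N.Finite) : (RS Om N).Finite := by
  have : RS Om N = ⋃ k ∈ N, {α : Om | IsRoot (X ^ (6 * k + 3) * (3 * X + 1) + (X + 3)) α} := by
    ext α
    simp [RS]
  rw [this]
  refine hN.biUnion fun k _ => Polynomial.finite_setOfPred_isRoot ?_
  intro h
  have := congrArg (eval 0) h
  simp at this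

lemma torsion_bound (x : Om) (hx : x ∈ adjoin ℚ (RS Om Set.univ)) (ht : IsOfFinOrder x) :
    x ^ 504 = 1 := by
  classical
  obtain ⟨T, hT, hxT⟩ := exists_finset_of_mem_adjoin hx
  choose! κ hκ using fun α (h : α ∈ T) => hT h
  let N : Set ℕ := κ '' T
  have hN : N.Finite := T.finite_toSet.image _
  have hxL : x ∈ adjoin ℚ (RS Om N) :=
    adjoin.mono ℚ (T : Set Om) (RS Om N)
      (fun α h => ⟨κ α, Set.mem_image_of_mem κ h, (hκ α h).2⟩) hxT
  have hfin : Finite (RS Om N) := (finite_RS N hN).to_subtype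
  have hfd : FiniteDimensional ℚ (adjoin ℚ (RS Om N)) :=
    finiteDimensional_adjoin fun α _ => Algebra.IsIntegral.isIntegral α
  have hnf : NumberField (adjoin ℚ (RS Om N)) := {}
  have hnorm := normal_RS (Om := Om) N
  have hgal : IsGalois ℚ (adjoin ℚ (RS Om N)) := {}
  have hadj : Algebra.adjoin ℚ ((adjoin ℚ (RS Om N)).val ⁻¹' RS Om N) = ⊤ := by
    rw [eq_top_iff]
    intro y _
    have h1 : (y : Om) ∈ Algebra.adjoin ℚ (RS Om N) := by
      rw [← adjoin_toSubalgebra_of_isAlgebraic fun α _ => Algebra.IsAlgebraic.isAlgebraic α]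
      exact y.2
    have h2 : (adjoin ℚ (RS Om N)).val '' ((adjoin ℚ (RS Om N)).val ⁻¹' RS Om N) = RS Om N := by
      apply Set.image_preimage_eq_of_subset
      intro α hα
      exact ⟨⟨α, subset_adjoin _ _ hα⟩, rfl⟩
    have h3 := AlgHom.map_adjoin (adjoin ℚ (RS Om N)).val ((adjoin ℚ (RS Om N)).val ⁻¹' RS Om N)
    rw [h2] at h3
    obtain ⟨z, hz, hz'⟩ := h3.ge h1
    have : z = y := Subtype.ext hz'
    exact this ▸ hz
  have hprim : IsPrimitiveRoot (⟨x, hxL⟩ : adjoin ℚ (RS Om N)) (orderOf x) :=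
    IsPrimitiveRoot.coe_submonoidClass_iff.1 (IsPrimitiveRoot.orderOf x)
  have := order_dvd (L := adjoin ℚ (RS Om N)) _ hadj (by
    rintro α ⟨k, -, hk⟩
    refine ⟨k, ?_⟩
    apply (adjoin ℚ (RS Om N)).val.toRingHom.injective
    simp only [map_add, map_mul, map_pow, map_ofNat, map_one, map_zero]
    exact hk) _ _ ht.orderOf_pos hprim
  exact orderOf_dvd_iff_pow_eq_one.1 this

lemma exists_nontorsion (k : ℕ) :
    ∃ α : Om, α ^ (6 * k + 3) * (3 * α + 1) + (α + 3) = 0 ∧ ¬ IsOfFinOrder α := by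
  have := IsAlgClosure.isAlgClosed ℚ (K := Om)
  by_contra hcon
  push Not at hcon
  set p : Om[X] := C 3 * X ^ (6 * k + 4) + X ^ (6 * k + 3) + X + C 3 with hp
  have hdeg : p.natDegree = 6 * k + 4 := by
    rw [hp]
    compute_degree!
  have hlc : p.leadingCoeff = 3 := by
    rw [leadingCoeff, hdeg, hp]
    simp [coeff_X, coeff_X_pow]
  have hnc : p.nextCoeff = 1 := by
    rw [nextCoeff_of_natDegree_pos (by omega), hdeg, hp]
    simp [coeff_X, coeff_X_pow]
  have hsum := (IsAlgClosed.splits p).nextCoeff_eq_neg_sum_roots_mul_leadingCoeff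
  rw [hlc, hnc] at hsum
  have hint : IsIntegral ℤ p.roots.sum := by
    refine IsIntegral.multiset_sum ?_
    intro α hα
    have h1 := isRoot_of_mem_roots hα
    rw [IsRoot.def, hp] at h1
    simp only [eval_add, eval_mul, eval_C, eval_pow, eval_X] at h1
    obtain ⟨m, hm, h2⟩ := isOfFinOrder_iff_pow_eq_one.1 (hcon α (by linear_combination h1))
    exact IsIntegral.of_pow hm (by rw [h2]; exact isIntegral_one)
  have h3 : p.roots.sum = algebraMap ℚ Om (-1 / 3) := by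
    simp only [map_div₀, map_neg, map_one, map_ofNat]
    rw [eq_div_iff (by norm_num)]
    linear_combination hsum
  rw [h3, isIntegral_algebraMap_iff (algebraMap ℚ Om).injective] at hint
  obtain ⟨z, hz⟩ := IsIntegrallyClosed.isIntegral_iff.1 hint
  have h4 : (3 * z : ℚ) = -1 := by
    have : (z : ℚ) = -1 / 3 := hz
    rw [this]; norm_num
  have h5 : 3 * z = -1 := by exact_mod_cast h4
  omega

lemma exists_conj : ∃ c : Om ≃ₐ[ℚ] Om, (∀ x, c (c x) = x) ∧
    ∀ x ∈ adjoin ℚ (RS Om Set.univ), ∀ φ : Om →+* ℂ, φ (c x) = (starRingEnd ℂ) (φ x) := by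
  let ι : Om →ₐ[ℚ] ℂ := IsAlgClosed.lift
  let _ : Algebra Om ℂ := ι.toRingHom.toAlgebra
  have : IsScalarTower ℚ Om ℂ := IsScalarTower.of_algebraMap_eq fun x => (ι.commutes x).symm
  let c : Om ≃ₐ[ℚ] Om := (Complex.conjAe.restrictScalars ℚ).restrictNormal Om
  have hc : ∀ x, ι (c x) = (starRingEnd ℂ) (ι x) := fun x =>
    (Complex.conjAe.restrictScalars ℚ).restrictNormal_commutes Om x
  have hroot : ∀ (φ : Om →+* ℂ) (α : Om), α ∈ RS Om Set.univ → (starRingEnd ℂ) (φ α) = φ α⁻¹ := by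
    rintro φ α ⟨k, -, hk⟩
    have h1 := congrArg φ hk
    simp only [map_add, map_mul, map_pow, map_ofNat, map_one, map_zero] at h1
    rw [map_inv₀, Complex.inv_eq_conj (norm_one k _ h1)]
  refine ⟨c, fun x => ι.toRingHom.injective ?_, ?_⟩
  · change ι (c (c x)) = ι x
    rw [hc, hc, Complex.conj_conj]
  · intro x hx φ
    induction hx using adjoin_induction with
    | mem α hα =>
      have h1 : c α = α⁻¹ := ι.toRingHom.injective ((hc α).trans (hroot ι.toRingHom α hα))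
      rw [h1, hroot φ α hα]
    | algebraMap q => simp
    | add x y _ _ hx hy => simp [hx, hy]
    | inv x _ hx => simp [hx]
    | mul x y _ _ hx hy => simp [hx, hy]

theorem main : ∃ (F₀ F : IntermediateField ℚ Om) (h : F₀ ≤ F),
    (∃ ε : ℝ, 0 < ε ∧ ∀ x ∈ F₀, x ≠ 0 → absLogHeight₁ x < ε → IsOfFinOrder x) ∧
    FiniteDimensional F₀ (extendScalars h) ∧ IsGalois ℚ F ∧
    {x : Om | x ∈ F ∧ IsOfFinOrder x}.Finite ∧
    ¬ ∃ ε : ℝ, 0 < ε ∧ ∀ x ∈ F, x ≠ 0 → absLogHeight₁ x < ε → IsOfFinOrder x := by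
  obtain ⟨c, hcc, hc⟩ := exists_conj (Om := Om)
  set F := adjoin ℚ (RS Om Set.univ) with hF
  have hnorm : Normal ℚ F := normal_RS _
  have hcF : ∀ x ∈ F, c x ∈ F := fun x hx => (normal_iff_forall_map_le'.1 hnorm c) ⟨x, hx, rfl⟩
  have hmem : ∀ x, x ∈ F ⊓ fixedField (Subgroup.zpowers c) ↔ x ∈ F ∧ c x = x := by
    intro x
    rw [mem_inf, mem_fixedField_iff]
    refine and_congr_right fun _ => ⟨fun h => h c (Subgroup.mem_zpowers c), fun h g hg => ?_⟩
    have : Subgroup.zpowers c ≤ MulAction.stabilizer (Om ≃ₐ[ℚ] Om) x :=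
      Subgroup.zpowers_le.2 h
    exact this hg
  refine ⟨F ⊓ fixedField (Subgroup.zpowers c), F, inf_le_left, ?_, ?_, {}, ?_, ?_⟩
  · refine ⟨Real.log 2 / 4, by positivity, ?_⟩
    intro x hx h0 hlt
    obtain ⟨hxF, hxc⟩ := (hmem x).1 hx
    by_contra hne
    refine absurd hlt (not_lt.2 (abs_large x (mul_ne_zero h0 ?_) ?_))
    · intro h
      exact hne (isOfFinOrder_iff_pow_eq_one.2 ⟨2, by norm_num, sub_eq_zero.1 h⟩)
    · intro φ
      have := hc x hxF φ
      rw [hxc] at this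
      exact Complex.conj_eq_iff_im.1 this.symm
  · obtain ⟨δ, hδ0, hδ⟩ : ∃ δ : Om, δ ≠ 0 ∧ ∀ x ∈ F, (x - c x) / δ ∈ F ∧
        c ((x - c x) / δ) = (x - c x) / δ := by
      by_cases hex : ∃ y ∈ F, c y ≠ y
      · obtain ⟨y, hy, hy'⟩ := hex
        refine ⟨y - c y, sub_ne_zero.2 hy'.symm, fun x hx =>
          ⟨div_mem (sub_mem hx (hcF x hx)) (sub_mem hy (hcF y hy)), ?_⟩⟩
        rw [map_div₀, map_sub, map_sub, hcc, hcc, ← neg_sub x, ← neg_sub y, neg_div_neg_eq]
      · push Not at hex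
        refine ⟨1, one_ne_zero, fun x hx => ?_⟩
        rw [hex x hx]
        simp
    set F₀ := F ⊓ fixedField (Subgroup.zpowers c) with hF₀
    have hle : extendScalars (inf_le_left : F₀ ≤ F) ≤ F₀⟮δ⟯ := by
      intro x hx
      have hx' : x ∈ F := hx
      have h1 : (x + c x) / 2 ∈ F₀ := (hmem _).2
        ⟨div_mem (add_mem hx' (hcF x hx')) (ofNat_mem F 2), by
          rw [map_div₀, map_add, hcc, map_ofNat, add_comm]⟩
      have h2 : (x - c x) / δ / 2 ∈ F₀ := (hmem _).2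
        ⟨div_mem (hδ x hx').1 (ofNat_mem F 2), by
          rw [map_div₀, (hδ x hx').2, map_ofNat]⟩
      have h3 : x = (x + c x) / 2 + (x - c x) / δ / 2 * δ := by
        field_simp
        ring
      rw [h3]
      exact add_mem (F₀⟮δ⟯.algebraMap_mem ⟨_, h1⟩)
        (mul_mem (F₀⟮δ⟯.algebraMap_mem ⟨_, h2⟩) (mem_adjoin_simple_self _ δ))
    have hfd : FiniteDimensional F₀ F₀⟮δ⟯ :=
      adjoin.finiteDimensional (Algebra.IsIntegral.isIntegral δ)
    exact Module.Finite.of_injective (inclusion hle).toLinearMap (inclusion_injective hle)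
  · refine (Polynomial.finite_setOfPred_isRoot (p := (X ^ 504 - 1 : Om[X])) ?_).subset ?_
    · intro h
      have := congrArg (eval 0) h
      simp at this
    · rintro x ⟨hx, ht⟩
      simp [torsion_bound x hx ht]
  · rintro ⟨ε, hε, h⟩
    obtain ⟨k, hk⟩ := exists_nat_gt (Real.log 2 / ε)
    obtain ⟨α, hα, hα'⟩ := exists_nontorsion (Om := Om) k
    refine hα' (h α (subset_adjoin _ _ ⟨k, trivial, hα⟩) (inv_root k α hα).1 ?_)
    have h1 := abs_small α (Algebra.IsIntegral.isIntegral α) k hα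
    rw [div_lt_iff₀ hε] at hk
    by_contra hge
    push Not at hge
    have h2 : (0 : ℝ) ≤ k := Nat.cast_nonneg k
    nlinarith [mul_le_mul_of_nonneg_left hge (by positivity : (0 : ℝ) ≤ 6 * k + 1)]

end Pool.Agent.H.MP_d03a5a_nt
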